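import Pool.Agent.N66.QG.Geom

set_option autoImplicit false
set_option linter.unusedSectionVars false

namespace Pool.Agent.N66.QG

universe u v w

section Act

variable {Λ : Type v} [AddCommGroup Λ] [LinearOrder Λ] [IsOrderedAddMonoid Λ] {X : Type w}
variable {d : X → X → Λ} (hT : IsLambdaTree d)
include hT

/-- the four point inequality -/
theorem four_point (x y z w : X) :
    d x y + d z w ≤ max (d x z + d y w) (d x w + d y z) := by
  obtain ⟨p, p1, p2, p3⟩ := median hT x y z
  obtain ⟨q, q1, q2, q3⟩ := median hT x y w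
  have h1 := collinear hT p1 q1
  have h2 := hT.dist_triangle z p w
  have h3 := hT.dist_triangle p q w
  have h4 := hT.dist_comm z p
  have h5 := hT.dist_comm y p
  have h6 := hT.dist_comm y q
  rw [le_max_iff]
  rcases abs_cases (d x p - d x q) with ⟨c1, c2⟩ | ⟨c1, c2⟩
  · left; rw [c1] at h1; grind
  · right; rw [c1] at h1; grind

theorem concat {x y z w : X} (h1 : d x y + d y z = d x z) (h2 : d y z + d z w = d y w)
    (hyz : y ≠ z) : d x z + d z w = d x w := by
  have h3 := four_point hT x z y w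
  have h4 : 0 < d y z := lt_of_le_of_ne (hT.dist_nonneg y z)
    (fun h => hyz ((hT.dist_eq_zero _ _).1 h.symm))
  have h5 := hT.dist_comm z y
  have h6 := hT.dist_triangle x z w
  rcases le_max_iff.1 h3 with h | h
  · grind
  · grind

theorem dpos {x y : X} (h : x ≠ y) : 0 < d x y :=
  lt_of_le_of_ne (hT.dist_nonneg x y) (fun h' => h ((hT.dist_eq_zero _ _).1 h'.symm))

variable {G : Type u} [Group G] [MulAction G X] (hF : ActsFreely G d)
include hF

theorem sq_ne {g : G} (hg : g ≠ 1) (x : X) : g • g • x ≠ x := fun h =>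
  hF.no_inversion g hg x (g • x) ⟨rfl, h⟩

theorem displ_lt {g : G} (hg : g ≠ 1) (x : X) : d x (g • x) < d x (g • g • x) := by
  by_contra hcon
  rw [not_lt] at hcon
  obtain ⟨m, m1, m2, m3⟩ := median hT (g • x) x (g • g • x)
  have i1 := hF.isometry g x m
  have i2 := hF.isometry g m (g • x)
  have i3 := hF.isometry g x (g • x)
  have i4 := hF.isometry g x (g • m)
  have i5 := hF.isometry g (g • m) (g • x)
  have s1 := hT.dist_comm x (g • x)
  have s2 := hT.dist_comm m x
  have s3 := hT.dist_comm m (g • x)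
  have s5 := hT.dist_comm (g • m) x
  have s6 := hT.dist_comm (g • m) (g • x)
  have n1 := hT.dist_nonneg x m
  have A : d (g • x) (g • m) + d (g • m) (g • g • x) = d (g • x) (g • g • x) := by grind
  have c1 := collinear hT A m2
  have e1 : d (g • x) (g • m) ≤ d (g • x) m := by grind
  rw [abs_of_nonpos (by grind)] at c1
  have t1 := hT.dist_triangle (g • m) m x
  have t2 := hT.dist_triangle (g • x) (g • m) x
  have e2 : d (g • m) x = d (g • x) m := by grind
  have B : d (g • x) (g • g • m) + d (g • g • m) (g • g • x) = d (g • x) (g • g • x) := by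
    grind
  have c2 := collinear hT B m2
  have e3 : d (g • x) (g • g • m) = d (g • x) m := by grind
  rw [e3, sub_self, abs_zero] at c2
  exact sq_ne hT hF hg m ((hT.dist_eq_zero _ _).1 c2)

/-- displacement of the powers -/
theorem step (g : G) (x : X) (k : ℕ) (h : d x (g • x) < d x (g ^ (k + 1) • x)) :
    d x (g ^ (k + 2) • x) + d x (g ^ k • x) = d x (g ^ (k + 1) • x) + d x (g ^ (k + 1) • x) := by
  have e1 : d (g • x) (g ^ (k + 2) • x) = d x (g ^ (k + 1) • x) := by
    rw [show g ^ (k + 2) = g * g ^ (k + 1) by rw [← pow_succ'], mul_smul]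
    exact hF.isometry _ _ _
  have e2 : d (g • x) (g ^ (k + 1) • x) = d x (g ^ k • x) := by
    rw [pow_succ', mul_smul]
    exact hF.isometry _ _ _
  have e3 : d (g ^ (k + 1) • x) (g ^ (k + 2) • x) = d x (g • x) := by
    rw [show g ^ (k + 2) = g ^ (k + 1) * g by rw [← pow_succ], mul_smul]
    exact hF.isometry _ _ _
  have s1 := hT.dist_comm (g • x) (g ^ (k + 1) • x)
  have s2 := hT.dist_comm (g • x) (g ^ (k + 2) • x)
  have f1 := four_point hT x (g ^ (k + 2) • x) (g • x) (g ^ (k + 1) • x)
  have f2 := four_point hT x (g ^ (k + 1) • x) (g • x) (g ^ (k + 2) • x)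
  have s3 := hT.dist_comm (g ^ (k + 1) • x) (g ^ (k + 2) • x)
  rcases le_max_iff.1 f1 with a | a <;> rcases le_max_iff.1 f2 with b | b <;> grind

/-- if `x` is on the axis of `g ^ 3` then it is on the axis of `g` -/
theorem root_axis {g : G} (hg : g ≠ 1) (x : X)
    (h : d x (g ^ 6 • x) = d x (g ^ 3 • x) + d x (g ^ 3 • x)) :
    d x (g ^ 2 • x) = d x (g • x) + d x (g • x) ∧
    d x (g ^ 3 • x) = d x (g • x) + d x (g • x) + d x (g • x) ∧
    d x (g ^ 4 • x) = d x (g • x) + d x (g • x) + d x (g • x) + d x (g • x) := by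
  have h2 : d x (g • x) < d x (g ^ 2 • x) := by
    have := displ_lt hT hF hg x
    rwa [pow_two, mul_smul]
  have p1 : g ^ 1 • x = g • x := by rw [pow_one]
  have h3 := step hT hF g x 1 h2
  rw [p1] at h3
  have h4 := step hT hF g x 2 (by grind)
  have h5 := step hT hF g x 3 (by grind)
  have h6 := step hT hF g x 4 (by grind)
  simp only [Nat.reduceAdd] at h3 h4 h5 h6
  refine ⟨by grind, by grind, by grind⟩

/-- `g` and `h` translate in coherent directions at the common point `o` of their axes -/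
structure Coh (d : X → X → Λ) (o : X) (g h : G) : Prop where
  left : d o (g • g • o) = d o (g • o) + d o (g • o)
  right : d o (h • h • o) = d o (h • o) + d o (h • o)
  gh : d o (g • h • o) = d o (g • o) + d o (h • o)
  hg : d o (h • g • o) = d o (g • o) + d o (h • o)

/-- the main computation: coherent elements with cube roots commute -/
theorem comm_of_coh {o : X} {g h a c : G} (hc : Coh d o g h) (hle : d o (h • o) ≤ d o (g • o))
    (hg : g ≠ 1) (hh : h ≠ 1) (ha : a ^ 3 = g) (hcc : c ^ 3 = g * h) : g * h = h * g := by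
  have ha1 : a ≠ 1 := by rintro rfl; exact hg (by rw [← ha, one_pow])
  have hgo : o ≠ g • o := fun e => hF.no_fixed_point g hg o e.symm
  have hho : o ≠ h • o := fun e => hF.no_fixed_point h hh o e.symm
  have pg := dpos hT hgo
  have ph := dpos hT hho
  -- `o` is on the axis of `g * h`
  have A1 : d o (g • o) + d (g • o) (g • h • o) = d o (g • h • o) := by
    rw [hF.isometry, hc.gh]
  have A2 : d (g • o) (g • h • o) + d (g • h • o) (g • h • g • o) = d (g • o) (g • h • g • o) := by
    rw [hF.isometry, hF.isometry, hF.isometry, hF.isometry, hc.hg, add_comm]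
  have A3 := concat hT A1 A2 (by
    intro e
    exact hho (MulAction.injective g e))
  have A4 : d (g • h • o) (g • h • g • o) + d (g • h • g • o) (g • h • g • h • o) =
      d (g • h • o) (g • h • g • h • o) := by
    simp only [hF.isometry, hc.gh]
  have A5 := concat hT A3 A4 (by
    intro e
    exact hgo (MulAction.injective h (MulAction.injective g e)))
  simp only [hF.isometry] at A1 A3 A5
  have hc1 : c ≠ 1 := by
    rintro rfl
    have : g * h = 1 := by rw [← hcc, one_pow]
    have e : g • h • o = o := by rw [← mul_smul, this, one_smul]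
    rw [e, d_self hT] at A1
    grind
  -- powers
  have ea : ∀ y : X, a ^ 3 • y = g • y := fun y => by rw [ha]
  have ea6 : ∀ y : X, a ^ 6 • y = g • g • y := fun y => by
    rw [show a ^ 6 = a ^ 3 * a ^ 3 by rw [← pow_add], mul_smul, ha]
  have ec : ∀ y : X, c ^ 3 • y = g • h • y := fun y => by rw [hcc, mul_smul]
  have ec6 : ∀ y : X, c ^ 6 • y = g • h • g • h • y := fun y => by
    rw [show c ^ 6 = c ^ 3 * c ^ 3 by rw [← pow_add], mul_smul, hcc, mul_smul, mul_smul]
  obtain ⟨a2, a3, a4⟩ := root_axis hT hF ha1 o (by rw [ea6, ea]; exact hc.left)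
  obtain ⟨c2, c3, c4⟩ := root_axis hT hF hc1 o (by rw [ec6, ec, ← A5, ← A3, hc.gh]; abel)
  rw [ea] at a3
  rw [ec, hc.gh] at c3
  have eg : g • o = a ^ 3 • o := (ea o).symm
  have egh : g • h • o = c ^ 3 • o := (ec o).symm
  have i1 : d (a • o) (a ^ 3 • o) = d o (a ^ 2 • o) := by
    rw [show a ^ 3 = a * a ^ 2 by rw [← pow_succ'], mul_smul]; exact hF.isometry _ _ _
  have i2 : d (a ^ 3 • o) (c ^ 3 • o) = d o (h • o) := by
    rw [← eg, ← egh]; exact hF.isometry _ _ _
  have i3 : d o (c ^ 3 • o) = d o (g • o) + d o (h • o) := by rw [← egh, hc.gh]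
  have i3' : d o (a ^ 3 • o) = d o (g • o) := by rw [← eg]
  have t1 := hT.dist_triangle (a • o) (a ^ 3 • o) (c ^ 3 • o)
  have t2 := hT.dist_triangle o (a • o) (c ^ 3 • o)
  have B1 : d o (a • o) + d (a • o) (c ^ 3 • o) = d o (c ^ 3 • o) := by grind
  -- the point `c • a • o`
  have i4 : d (c • o) (c • a • o) = d o (a • o) := hF.isometry _ _ _
  have i5 : d (c • a • o) (c ^ 4 • o) = d (a • o) (c ^ 3 • o) := by
    rw [show c ^ 4 = c * c ^ 3 by rw [← pow_succ'], mul_smul]; exact hF.isometry _ _ _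
  have t3 := hT.dist_triangle o (c • a • o) (c ^ 4 • o)
  have t4 := hT.dist_triangle o (c • o) (c • a • o)
  have D1 : d o (c • a • o) = d o (c • o) + d o (a • o) := by grind
  have i6 : d (c • a • o) (c ^ 3 • o) = d (a • o) (c ^ 2 • o) := by
    rw [show c ^ 3 = c * c ^ 2 by rw [← pow_succ'], mul_smul]; exact hF.isometry _ _ _
  have i7 : d (c ^ 2 • o) (c ^ 3 • o) = d o (c • o) := by
    rw [show c ^ 3 = c ^ 2 * c by rw [← pow_succ], mul_smul]; exact hF.isometry _ _ _
  have B2 : d o (c ^ 2 • o) + d (c ^ 2 • o) (c ^ 3 • o) = d o (c ^ 3 • o) := by grind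
  have k1 := collinear hT B1 B2
  have lam : d o (a • o) ≤ d o (c • o) := by grind
  have lam2 : d o (c • o) ≤ d o (a • o) + d o (a • o) := by grind
  have pa : 0 ≤ d o (a • o) := hT.dist_nonneg _ _
  rw [abs_of_nonpos (by grind)] at k1
  have D2 : d (c • a • o) (c ^ 3 • o) = d o (c • o) + d o (c • o) - d o (a • o) := by grind
  -- the point `a • c • o`
  have i8 : d (c • o) (c ^ 3 • o) = d o (c ^ 2 • o) := by
    rw [show c ^ 3 = c * c ^ 2 by rw [← pow_succ'], mul_smul]; exact hF.isometry _ _ _
  have B3 : d o (c • o) + d (c • o) (c ^ 3 • o) = d o (c ^ 3 • o) := by grind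
  have B4 : d o (a ^ 3 • o) + d (a ^ 3 • o) (c ^ 3 • o) = d o (c ^ 3 • o) := by grind
  have k2 := collinear hT B3 B4
  rw [abs_of_nonpos (by grind)] at k2
  have i9 : d (a • o) (a • c • o) = d o (c • o) := hF.isometry _ _ _
  have i10 : d (a • c • o) (a ^ 4 • o) = d (c • o) (a ^ 3 • o) := by
    rw [show a ^ 4 = a * a ^ 3 by rw [← pow_succ'], mul_smul]; exact hF.isometry _ _ _
  have t5 := hT.dist_triangle o (a • c • o) (a ^ 4 • o)
  have t6 := hT.dist_triangle o (a • o) (a • c • o)
  have D3 : d o (a • c • o) = d o (c • o) + d o (a • o) := by grind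
  have i11 : d (a • c • o) (a ^ 3 • o) = d (c • o) (a ^ 2 • o) := by
    rw [show a ^ 3 = a * a ^ 2 by rw [← pow_succ'], mul_smul]; exact hF.isometry _ _ _
  have i12 : d (a ^ 2 • o) (a ^ 3 • o) = d o (a • o) := by
    rw [show a ^ 3 = a ^ 2 * a by rw [← pow_succ], mul_smul]; exact hF.isometry _ _ _
  have B5 : d o (a ^ 2 • o) + d (a ^ 2 • o) (a ^ 3 • o) = d o (a ^ 3 • o) := by grind
  have B6 : d o (c • o) + d (c • o) (a ^ 3 • o) = d o (a ^ 3 • o) := by grind
  have k3 := collinear hT B6 B5
  rw [abs_of_nonpos (by grind)] at k3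
  have t7 := hT.dist_triangle (a • c • o) (a ^ 3 • o) (c ^ 3 • o)
  have t8 := hT.dist_triangle o (a • c • o) (c ^ 3 • o)
  have D4 : d (a • c • o) (c ^ 3 • o) = d o (c • o) + d o (c • o) - d o (a • o) := by grind
  -- the two points agree
  have k4 := collinear hT (x := o) (y := c ^ 3 • o) (p := c • a • o) (q := a • c • o)
    (by grind) (by grind)
  rw [D1, D3, sub_self, abs_zero] at k4
  have k5 : c • a • o = a • c • o := (hT.dist_eq_zero _ _).1 k4
  have k6 : a * c = c * a := by
    by_contra hne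
    have h1 : (a * c)⁻¹ * (c * a) ≠ 1 := by
      intro e
      exact hne (inv_mul_eq_one.1 e)
    apply hF.no_fixed_point _ h1 o
    rw [mul_smul, mul_smul c a, k5, ← mul_smul a c, inv_smul_smul]
  have k7 : Commute a c := k6
  have k8 : Commute (a ^ 3) (c ^ 3) := (k7.pow_pow 3 3)
  rw [ha, hcc] at k8
  have k9 : g * (g * h) = g * h * g := k8
  have : g * (g * h) = g * (h * g) := by rw [k9, mul_assoc]
  exact mul_left_cancel this

end Act

end Pool.Agent.N66.QG
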