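import Mathlib

/-!
# `Λ`-trees, free actions and free `ℚ`-groups
-/

set_option autoImplicit false

namespace Pool.Agent.N66.QG

universe u v w

section Trees

variable {Λ : Type v} [AddCommGroup Λ] [LinearOrder Λ] {X : Type w}

/-- `S` is a segment with endpoints `x` and `y`: the image of an isometric embedding of a closed
interval `[a, b]` of `Λ` that sends `a` to `x` and `b` to `y`. -/
def IsSegment (d : X → X → Λ) (x y : X) (S : Set X) : Prop :=
  ∃ (a b : Λ) (f : Λ → X), a ≤ b ∧
    (∀ s ∈ Set.Icc a b, ∀ t ∈ Set.Icc a b, d (f s) (f t) = |s - t|) ∧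
    f a = x ∧ f b = y ∧ S = f '' Set.Icc a b

/-- `X` with the distance `d` is a `Λ`-tree: a nonempty `Λ`-metric space in which any two points
are joined by a segment, the intersection of two segments with a common endpoint is a segment, and
the union of two segments that meet only in a common endpoint is a segment. -/
structure IsLambdaTree (d : X → X → Λ) : Prop where
  nonempty : Nonempty X
  dist_nonneg : ∀ x y, 0 ≤ d x y
  dist_eq_zero : ∀ x y, d x y = 0 ↔ x = y
  dist_comm : ∀ x y, d x y = d y x
  dist_triangle : ∀ x y z, d x z ≤ d x y + d y z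
  exists_segment : ∀ x y, ∃ S, IsSegment d x y S
  inter_segment : ∀ x y z S T, IsSegment d x y S → IsSegment d x z T →
    ∃ u w, IsSegment d u w (S ∩ T)
  union_segment : ∀ x y z S T, IsSegment d x y S → IsSegment d x z T → S ∩ T = {x} →
    ∃ u w, IsSegment d u w (S ∪ T)

/-- The action of `G` on the `Λ`-metric space `X` is free: `G` acts by isometries, and every
nontrivial element fixes no point and inverts no segment (it does not exchange two points). -/
structure ActsFreely (G : Type u) [Group G] [MulAction G X] (d : X → X → Λ) : Prop where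
  isometry : ∀ (g : G) (x y : X), d (g • x) (g • y) = d x y
  no_fixed_point : ∀ g : G, g ≠ 1 → ∀ x : X, g • x ≠ x
  no_inversion : ∀ g : G, g ≠ 1 → ∀ x y : X, ¬ (g • x = y ∧ g • y = x)

end Trees

/-- A `ℚ`-group: every equation `x ^ n = g` with `n ≥ 1` has exactly one solution. -/
def IsQGroup (G : Type u) [Group G] : Prop :=
  ∀ n : ℕ, 1 ≤ n → ∀ g : G, ∃! x : G, x ^ n = g

/-- `F` is the free `ℚ`-group on `X`, with canonical map `ι : X → F`: `F` is a `ℚ`-group and every
map from `X` to a `ℚ`-group `H` extends uniquely to a homomorphism `F → H`. -/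
structure IsFreeQGroup (X : Type u) (F : Type u) [Group F] (ι : X → F) : Prop where
  isQGroup : IsQGroup F
  lift : ∀ (H : Type u) [Group H], IsQGroup H → ∀ f : X → H, ∃! φ : F →* H, ∀ x, φ (ι x) = f x

/-- `G` acts freely on some `Λ`-tree, for some totally ordered abelian group `Λ`. -/
def TreeFree (G : Type u) [Group G] : Prop :=
  ∃ (Λ : Type v) (_ : AddCommGroup Λ) (_ : LinearOrder Λ) (_ : IsOrderedAddMonoid Λ)
    (X : Type w) (_ : MulAction G X) (d : X → X → Λ), IsLambdaTree d ∧ ActsFreely G d

end Pool.Agent.N66.QG
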