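import Pool.Agent.N66.QG.Defs

set_option autoImplicit false

namespace Pool.Agent.N66.QG

universe u v w

/-! ### Existence of free `ℚ`-groups -/

/-- formal expressions in group operations and roots; `root n t` stands for the root of `t` of
order `n + 1` -/
inductive Pre (X : Type u) : Type u
  | of (x : X) : Pre X
  | one : Pre X
  | mul (s t : Pre X) : Pre X
  | inv (t : Pre X) : Pre X
  | root (n : ℕ) (t : Pre X) : Pre X

/-- formal powers -/
def Pre.pow {X : Type u} (t : Pre X) : ℕ → Pre X
  | 0 => .one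
  | n + 1 => .mul (Pre.pow t n) t

/-- the congruence generated by the axioms of `ℚ`-groups -/
inductive Rel {X : Type u} : Pre X → Pre X → Prop
  | refl (t : Pre X) : Rel t t
  | symm {s t : Pre X} : Rel s t → Rel t s
  | trans {r s t : Pre X} : Rel r s → Rel s t → Rel r t
  | mul {s s' t t' : Pre X} : Rel s s' → Rel t t' → Rel (.mul s t) (.mul s' t')
  | inv {t t' : Pre X} : Rel t t' → Rel (.inv t) (.inv t')
  | root (n : ℕ) {t t' : Pre X} : Rel t t' → Rel (.root n t) (.root n t')
  | assoc (r s t : Pre X) : Rel (.mul (.mul r s) t) (.mul r (.mul s t))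
  | one_mul (t : Pre X) : Rel (.mul .one t) t
  | mul_one (t : Pre X) : Rel (.mul t .one) t
  | inv_mul (t : Pre X) : Rel (.mul (.inv t) t) .one
  | root_pow (n : ℕ) (t : Pre X) : Rel (Pre.pow (.root n t) (n + 1)) t
  | pow_root (n : ℕ) (t : Pre X) : Rel (.root n (Pre.pow t (n + 1))) t

/-- the setoid of `Rel` -/
def relSetoid (X : Type u) : Setoid (Pre X) := ⟨Rel, Rel.refl, Rel.symm, Rel.trans⟩

/-- the free `ℚ`-group on `X` -/
def FQ (X : Type u) : Type u := Quotient (relSetoid X)

namespace FQ

variable {X : Type u}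

instance : Group (FQ X) where
  mul := Quotient.map₂ Pre.mul (fun _ _ h _ _ h' => Rel.mul h h')
  one := Quotient.mk _ Pre.one
  inv := Quotient.map Pre.inv (fun _ _ h => Rel.inv h)
  mul_assoc := by
    rintro ⟨a⟩ ⟨b⟩ ⟨c⟩
    exact Quotient.sound (Rel.assoc a b c)
  one_mul := by
    rintro ⟨a⟩
    exact Quotient.sound (Rel.one_mul a)
  mul_one := by
    rintro ⟨a⟩
    exact Quotient.sound (Rel.mul_one a)
  inv_mul_cancel := by
    rintro ⟨a⟩
    exact Quotient.sound (Rel.inv_mul a)

/-- the class of an expression -/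
def mk (t : Pre X) : FQ X := Quotient.mk _ t

theorem mk_mul (s t : Pre X) : mk (.mul s t) = mk s * mk t := rfl
theorem mk_one : mk (.one : Pre X) = 1 := rfl
theorem mk_inv (t : Pre X) : mk (.inv t) = (mk t)⁻¹ := rfl

theorem mk_pow (t : Pre X) (n : ℕ) : mk (Pre.pow t n) = mk t ^ n := by
  induction n with
  | zero => rfl
  | succ n ih => rw [Pre.pow, mk_mul, ih, pow_succ]

theorem mk_surj (g : FQ X) : ∃ t, mk t = g := Quotient.exists_rep g

theorem isQGroup : IsQGroup (FQ X) := by
  intro n hn g
  obtain ⟨n, rfl⟩ := Nat.exists_eq_add_of_le' hn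
  obtain ⟨t, rfl⟩ := mk_surj g
  refine ⟨mk (.root n t), ?_, ?_⟩
  · show mk (.root n t) ^ (n + 1) = mk t
    rw [← mk_pow]
    exact Quotient.sound (Rel.root_pow n t)
  · intro y hy
    obtain ⟨s, rfl⟩ := mk_surj y
    have hy : mk s ^ (n + 1) = mk t := hy
    rw [← mk_pow] at hy
    have h1 : Rel (Pre.pow s (n + 1)) t := Quotient.exact hy
    exact Quotient.sound ((Rel.pow_root n s).symm.trans (Rel.root n h1))

/-- evaluation of expressions in a `ℚ`-group -/
noncomputable def eval {H : Type u} [Group H] (hH : IsQGroup H) (f : X → H) : Pre X → H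
  | .of x => f x
  | .one => 1
  | .mul s t => eval hH f s * eval hH f t
  | .inv t => (eval hH f t)⁻¹
  | .root n t => (hH (n + 1) (Nat.le_add_left 1 n) (eval hH f t)).choose

theorem eval_pow {H : Type u} [Group H] (hH : IsQGroup H) (f : X → H) (t : Pre X) (n : ℕ) :
    eval hH f (Pre.pow t n) = eval hH f t ^ n := by
  induction n with
  | zero => rw [pow_zero]; rfl
  | succ n ih => rw [Pre.pow, eval, ih, pow_succ]

theorem eval_rel {H : Type u} [Group H] (hH : IsQGroup H) (f : X → H) {s t : Pre X}
    (h : Rel s t) : eval hH f s = eval hH f t := by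
  induction h with
  | refl t => rfl
  | symm _ ih => exact ih.symm
  | trans _ _ ih1 ih2 => exact ih1.trans ih2
  | mul _ _ ih1 ih2 => simp only [eval, ih1, ih2]
  | inv _ ih => simp only [eval, ih]
  | root n _ ih => simp only [eval, ih]
  | assoc r s t => simp only [eval, mul_assoc]
  | one_mul t => simp only [eval, _root_.one_mul]
  | mul_one t => simp only [eval, _root_.mul_one]
  | inv_mul t => simp only [eval, inv_mul_cancel]
  | root_pow n t =>
    rw [eval_pow, eval]
    exact (hH (n + 1) (Nat.le_add_left 1 n) (eval hH f t)).choose_spec.1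
  | pow_root n t =>
    rw [eval]
    exact ((hH (n + 1) (Nat.le_add_left 1 n) (eval hH f (Pre.pow t (n + 1)))).choose_spec.2 _
      (eval_pow hH f t (n + 1)).symm).symm

/-- the homomorphism to a `ℚ`-group given by the images of the generators -/
noncomputable def lift {H : Type u} [Group H] (hH : IsQGroup H) (f : X → H) : FQ X →* H where
  toFun := Quotient.lift (eval hH f) (fun _ _ h => eval_rel hH f h)
  map_one' := rfl
  map_mul' := by
    rintro ⟨a⟩ ⟨b⟩
    rfl

theorem lift_mk {H : Type u} [Group H] (hH : IsQGroup H) (f : X → H) (t : Pre X) :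
    lift hH f (mk t) = eval hH f t := rfl

theorem isFree (X : Type u) : IsFreeQGroup X (FQ X) (fun x => mk (.of x)) where
  isQGroup := isQGroup
  lift := by
    intro H _ hH f
    refine ⟨lift hH f, fun x => rfl, ?_⟩
    intro φ hφ
    have key : ∀ t : Pre X, φ (mk t) = eval hH f t := by
      intro t
      induction t with
      | of x => exact hφ x
      | one => exact map_one φ
      | mul s t ih1 ih2 => rw [mk_mul, map_mul, ih1, ih2]; rfl
      | inv t ih => rw [mk_inv, map_inv, ih]; rfl
      | root n t ih =>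
        have h1 : mk (.root n t) ^ (n + 1) = mk t := by
          rw [← mk_pow]
          exact Quotient.sound (Rel.root_pow n t)
        have h2 : φ (mk (.root n t)) ^ (n + 1) = eval hH f t := by
          rw [← map_pow, h1, ih]
        rw [eval]
        exact (hH (n + 1) (Nat.le_add_left 1 n) (eval hH f t)).choose_spec.2 _ h2
    ext g
    obtain ⟨t, rfl⟩ := mk_surj g
    rw [key, lift_mk]

end FQ

/-! ### A noncommutative `ℚ`-group -/

/-- the Heisenberg group over `ℚ` -/
@[ext] structure Heis : Type where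
  a : ℚ
  b : ℚ
  c : ℚ

namespace Heis

instance : Group Heis where
  mul p q := ⟨p.a + q.a, p.b + q.b, p.c + q.c + p.a * q.b⟩
  one := ⟨0, 0, 0⟩
  inv p := ⟨-p.a, -p.b, -p.c + p.a * p.b⟩
  mul_assoc p q r := by
    show (⟨_, _, _⟩ : Heis) = ⟨_, _, _⟩
    ext
    · exact add_assoc _ _ _
    · exact add_assoc _ _ _
    · show p.c + q.c + p.a * q.b + r.c + (p.a + q.a) * r.b =
        p.c + (q.c + r.c + q.a * r.b) + p.a * (q.b + r.b)
      ring
  one_mul p := by
    show (⟨_, _, _⟩ : Heis) = p
    ext
    · exact zero_add _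
    · exact zero_add _
    · show 0 + p.c + 0 * p.b = p.c
      ring
  mul_one p := by
    show (⟨_, _, _⟩ : Heis) = p
    ext
    · exact add_zero _
    · exact add_zero _
    · show p.c + 0 + p.a * 0 = p.c
      ring
  inv_mul_cancel p := by
    show (⟨_, _, _⟩ : Heis) = ⟨_, _, _⟩
    ext
    · exact neg_add_cancel _
    · exact neg_add_cancel _
    · show -p.c + p.a * p.b + p.c + -p.a * p.b = 0
      ring

theorem mul_def (p q : Heis) : p * q = ⟨p.a + q.a, p.b + q.b, p.c + q.c + p.a * q.b⟩ := rfl
theorem one_def : (1 : Heis) = ⟨0, 0, 0⟩ := rfl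

theorem pow_def (p : Heis) (n : ℕ) :
    p ^ n = ⟨n * p.a, n * p.b, n * p.c + n * (n - 1) / 2 * (p.a * p.b)⟩ := by
  induction n with
  | zero => rw [pow_zero, one_def]; ext <;> simp
  | succ n ih =>
    rw [pow_succ, ih, mul_def]
    ext
    · push_cast; ring
    · push_cast; ring
    · push_cast; ring

theorem isQGroup : IsQGroup Heis := by
  intro n hn g
  have h0 : (n : ℚ) ≠ 0 := by positivity
  refine ⟨⟨g.a / n, g.b / n, (g.c - n * (n - 1) / 2 * (g.a / n * (g.b / n))) / n⟩, ?_, ?_⟩
  · show _ ^ n = g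
    rw [pow_def]
    ext
    · show (n : ℚ) * (g.a / n) = g.a
      field_simp
    · show (n : ℚ) * (g.b / n) = g.b
      field_simp
    · show (n : ℚ) * ((g.c - n * (n - 1) / 2 * (g.a / n * (g.b / n))) / n) +
        n * (n - 1) / 2 * ((g.a / n) * (g.b / n)) = g.c
      field_simp
      ring
  · intro y hy
    have hy : y ^ n = g := hy
    rw [pow_def] at hy
    have ha : (n : ℚ) * y.a = g.a := congrArg Heis.a hy
    have hb : (n : ℚ) * y.b = g.b := congrArg Heis.b hy
    have hc : (n : ℚ) * y.c + n * (n - 1) / 2 * (y.a * y.b) = g.c := congrArg Heis.c hy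
    have ea : y.a = g.a / n := by rw [← ha]; field_simp
    have eb : y.b = g.b / n := by rw [← hb]; field_simp
    ext
    · exact ea
    · exact eb
    · show y.c = (g.c - n * (n - 1) / 2 * (g.a / n * (g.b / n))) / n
      rw [← ea, ← eb, ← hc]
      field_simp
      ring

end Heis

theorem IsQGroup.ulift {G : Type} [Group G] (h : IsQGroup G) : IsQGroup (ULift.{u} G) := by
  intro n hn g
  obtain ⟨x, hx, hu⟩ := h n hn g.down
  refine ⟨⟨x⟩, ?_, ?_⟩
  · show (⟨x⟩ : ULift.{u} G) ^ n = g
    exact ULift.down_injective hx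
  · intro y hy
    have hy : y ^ n = g := hy
    have : y.down = x := hu y.down (by rw [← hy]; rfl)
    exact ULift.down_injective this

/-- the images of two different generators of a free `ℚ`-group do not commute -/
theorem not_comm_of_ne {X : Type u} {F : Type u} [Group F] {ι : X → F}
    (hF : IsFreeQGroup X F ι) {x y : X} (hxy : x ≠ y) : ι x * ι y ≠ ι y * ι x := by
  classical
  intro hcomm
  obtain ⟨φ, hφ, _⟩ := hF.lift (ULift.{u} Heis) Heis.isQGroup.ulift
    (fun z => if z = x then ⟨⟨1, 0, 0⟩⟩ else ⟨⟨0, 1, 0⟩⟩)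
  have h1 := congrArg φ hcomm
  rw [map_mul, map_mul, hφ, hφ, if_pos rfl, if_neg hxy.symm] at h1
  have h2 := congrArg (fun p : ULift.{u} Heis => p.down.c) h1
  simp only [ULift.mul_down, Heis.mul_def] at h2
  norm_num at h2

end Pool.Agent.N66.QG
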