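import Pool.Agent.N66.QG.Defs

set_option autoImplicit false

namespace Pool.Agent.N66.QG

universe u v w

section Geom

variable {Λ : Type v} [AddCommGroup Λ] [LinearOrder Λ] [IsOrderedAddMonoid Λ] {X : Type w}
variable {d : X → X → Λ}

/-- facts about the coordinates on a segment -/
theorem seg_facts {x y : X} {S : Set X} (h : IsSegment d x y S) :
    (∀ p ∈ S, d x p + d p y = d x y) ∧ (∀ p ∈ S, ∀ q ∈ S, d p q = |d x p - d x q|) ∧
    (∀ t, 0 ≤ t → t ≤ d x y → ∃ p ∈ S, d x p = t) ∧ x ∈ S ∧ y ∈ S := by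
  obtain ⟨a, b, f, hab, hf, rfl, rfl, rfl⟩ := h
  have ha : a ∈ Set.Icc a b := ⟨le_refl _, hab⟩
  have hb : b ∈ Set.Icc a b := ⟨hab, le_refl _⟩
  have key : ∀ s ∈ Set.Icc a b, d (f a) (f s) = s - a ∧ d (f s) (f b) = b - s := by
    intro s hs
    have h1 := hf a ha s hs
    have h2 := hf s hs b hb
    rw [h1, h2, abs_of_nonpos (by grind [hs.1]), abs_of_nonpos (by grind [hs.2])]
    constructor <;> abel
  refine ⟨?_, ?_, ?_, ⟨a, ha, rfl⟩, ⟨b, hb, rfl⟩⟩
  · rintro _ ⟨s, hs, rfl⟩
    have h1 := key s hs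
    have h2 := key b hb
    grind
  · rintro _ ⟨s, hs, rfl⟩ _ ⟨t, ht, rfl⟩
    have h1 := key s hs
    have h2 := key t ht
    rw [hf s hs t ht, h1.1, h2.1]
    congr 1
    abel
  · intro t ht1 ht2
    have h2 := key b hb
    have hmem : a + t ∈ Set.Icc a b := ⟨by grind, by grind⟩
    refine ⟨f (a + t), ⟨a + t, hmem, rfl⟩, ?_⟩
    rw [(key _ hmem).1]; abel

theorem seg_symm {x y : X} {S : Set X} (h : IsSegment d x y S) : IsSegment d y x S := by
  obtain ⟨a, b, f, hab, hf, rfl, rfl, rfl⟩ := h
  refine ⟨-b, -a, fun t => f (-t), by grind, ?_, by simp, by simp, ?_⟩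
  · intro s hs t ht
    have hs1 := hs.1
    have hs2 := hs.2
    have ht1 := ht.1
    have ht2 := ht.2
    rw [hf (-s) ⟨by grind, by grind⟩ (-t) ⟨by grind, by grind⟩]
    rw [← abs_neg]; congr 1; abel
  · ext p
    constructor
    · rintro ⟨s, hs, rfl⟩
      have hs1 := hs.1
      have hs2 := hs.2
      exact ⟨-s, ⟨by grind, by grind⟩, by simp⟩
    · rintro ⟨s, hs, rfl⟩
      have hs1 := hs.1
      have hs2 := hs.2
      exact ⟨-s, ⟨by grind, by grind⟩, rfl⟩

variable (hT : IsLambdaTree d)
include hT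

theorem d_self (x : X) : d x x = 0 := (hT.dist_eq_zero x x).2 rfl

theorem endpoint {x y u w : X} {S U : Set X} (hS : IsSegment d x y S) (hU : IsSegment d u w U)
    (hUS : U ⊆ S) (hx : x ∈ U) : x = u ∨ x = w := by
  obtain ⟨s1, s2, s3, s4, s5⟩ := seg_facts hS
  obtain ⟨u1, u2, u3, u4, u5⟩ := seg_facts hU
  have h1 := u1 x hx
  have h2 := s2 u (hUS u4) w (hUS u5)
  have h3 := hT.dist_comm u x
  have h4 := hT.dist_nonneg x u
  have h5 := hT.dist_nonneg x w
  have h6 : d x u = 0 ∨ d x w = 0 := by
    rcases le_total (d x u) (d x w) with h | h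
    · rw [abs_of_nonpos (by grind)] at h2
      left; grind
    · rw [abs_of_nonneg (by grind)] at h2
      right; grind
  rcases h6 with h6 | h6
  · left; exact (hT.dist_eq_zero _ _).1 h6
  · right; exact (hT.dist_eq_zero _ _).1 h6

theorem inter_form {x y z : X} {S T : Set X} (hS : IsSegment d x y S) (hTT : IsSegment d x z T) :
    ∃ m, IsSegment d x m (S ∩ T) := by
  obtain ⟨u, w, hU⟩ := hT.inter_segment x y z S T hS hTT
  have hx : x ∈ S ∩ T := ⟨(seg_facts hS).2.2.2.1, (seg_facts hTT).2.2.2.1⟩
  rcases endpoint hT hS hU Set.inter_subset_left hx with rfl | rfl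
  · exact ⟨w, hU⟩
  · exact ⟨u, seg_symm hU⟩

theorem seg_unique {x y : X} {S T : Set X} (hS : IsSegment d x y S) (hTT : IsSegment d x y T) :
    S = T := by
  have key : ∀ {S T : Set X}, IsSegment d x y S → IsSegment d x y T → S ⊆ T := by
    intro S T hS hTT
    obtain ⟨m, hm⟩ := inter_form hT hS hTT
    obtain ⟨s1, s2, s3, s4, s5⟩ := seg_facts hS
    obtain ⟨t1, t2, t3, t4, t5⟩ := seg_facts hTT
    obtain ⟨m1, m2, m3, m4, m5⟩ := seg_facts hm
    have h1 := m1 y ⟨s5, t5⟩
    have h2 := s1 m m5.1
    have h3 := hT.dist_nonneg m y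
    have h4 := hT.dist_comm m y
    have h5 : d m y = 0 := by grind
    have h6 : m = y := (hT.dist_eq_zero _ _).1 h5
    subst h6
    intro p hp
    have h7 := s1 p hp
    obtain ⟨q, hq, hq2⟩ := m3 (d x p) (hT.dist_nonneg _ _) (by have := hT.dist_nonneg p m; grind)
    have h8 := s2 p hp q hq.1
    rw [hq2, sub_self, abs_zero] at h8
    rw [(hT.dist_eq_zero _ _).1 h8]
    exact hq.2
  exact Set.Subset.antisymm (key hS hTT) (key hTT hS)

theorem seg_eq {x y : X} {S : Set X} (hS : IsSegment d x y S) :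
    S = {p | d x p + d p y = d x y} := by
  ext p
  constructor
  · intro hp; exact (seg_facts hS).1 p hp
  · intro hp
    have hp : d x p + d p y = d x y := hp
    obtain ⟨A, hA⟩ := hT.exists_segment p x
    obtain ⟨B, hB⟩ := hT.exists_segment p y
    obtain ⟨m, hm⟩ := inter_form hT hA hB
    obtain ⟨a1, a2, a3, a4, a5⟩ := seg_facts hA
    obtain ⟨b1, b2, b3, b4, b5⟩ := seg_facts hB
    obtain ⟨m1, m2, m3, m4, m5⟩ := seg_facts hm
    have h1 := a1 m m5.1
    have h2 := b1 m m5.2
    have h3 := hT.dist_comm p x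
    have h4 := hT.dist_comm m x
    have h5 := hT.dist_triangle x m y
    have h6 := hT.dist_nonneg p m
    have h7 : d p m = 0 := by grind
    have h8 : p = m := (hT.dist_eq_zero _ _).1 h7
    subst h8
    have h9 : A ∩ B = {p} := by
      ext q
      constructor
      · intro hq
        have e1 := m1 q hq
        rw [d_self hT] at e1
        have e2 := hT.dist_nonneg p q
        have e3 := hT.dist_nonneg q p
        have e4 : d q p = 0 := by grind
        exact (hT.dist_eq_zero _ _).1 e4
      · rintro rfl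
        exact m4
    obtain ⟨u, w, hV⟩ := hT.union_segment p x y A B hA hB h9
    obtain ⟨v1, v2, v3, v4, v5⟩ := seg_facts hV
    have hx : x ∈ A ∪ B := Or.inl a5
    have hy : y ∈ A ∪ B := Or.inr b5
    have bound : ∀ q ∈ A ∪ B, ∀ r ∈ A ∪ B, d q r ≤ d x y := by
      intro q hq r hr
      have t1 := hT.dist_triangle q p r
      have t2 := hT.dist_comm q p
      have t3 := hT.dist_nonneg p q
      have t4 := hT.dist_nonneg p r
      have n1 := hT.dist_nonneg q x
      have n2 := hT.dist_nonneg q y
      have n3 := hT.dist_nonneg r x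
      have n4 := hT.dist_nonneg r y
      have n5 := hT.dist_nonneg p x
      have n6 := hT.dist_nonneg p y
      rcases hq with hq | hq <;> rcases hr with hr | hr
      · have c1 := a2 q hq r hr
        have c2 := a1 q hq
        have c3 := a1 r hr
        rcases le_total (d p q) (d p r) with c | c
        · rw [abs_of_nonpos (by grind)] at c1; grind
        · rw [abs_of_nonneg (by grind)] at c1; grind
      · have c2 := a1 q hq
        have c3 := b1 r hr
        grind
      · have c2 := b1 q hq
        have c3 := a1 r hr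
        grind
      · have c1 := b2 q hq r hr
        have c2 := b1 q hq
        have c3 := b1 r hr
        rcases le_total (d p q) (d p r) with c | c
        · rw [abs_of_nonpos (by grind)] at c1; grind
        · rw [abs_of_nonneg (by grind)] at c1; grind
    have f1 := bound u v4 w v5
    have f2 := v1 x hx
    have f3 := v1 y hy
    have f4 := v2 x hx y hy
    have n1 := hT.dist_nonneg u x
    have n2 := hT.dist_nonneg x w
    have n3 := hT.dist_nonneg u y
    have n4 := hT.dist_nonneg y w
    have hcase : (u = x ∧ w = y) ∨ (u = y ∧ w = x) := by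
      rcases le_total (d u x) (d u y) with c | c
      · rw [abs_of_nonpos (by grind)] at f4
        left
        have g1 : d u x = 0 := by grind
        have g2 : d y w = 0 := by grind
        exact ⟨(hT.dist_eq_zero _ _).1 g1, ((hT.dist_eq_zero _ _).1 g2).symm⟩
      · rw [abs_of_nonneg (by grind)] at f4
        right
        have g1 : d u y = 0 := by grind
        have g2 : d x w = 0 := by grind
        exact ⟨(hT.dist_eq_zero _ _).1 g1, ((hT.dist_eq_zero _ _).1 g2).symm⟩
    rcases hcase with ⟨rfl, rfl⟩ | ⟨rfl, rfl⟩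
    · rw [seg_unique hT hS hV]; exact Or.inl a4
    · rw [seg_unique hT hS (seg_symm hV)]; exact Or.inl a4

/-- two points of the metric interval from `x` to `y` -/
theorem collinear {x y p q : X} (hp : d x p + d p y = d x y) (hq : d x q + d q y = d x y) :
    d p q = |d x p - d x q| := by
  obtain ⟨S, hS⟩ := hT.exists_segment x y
  have h := seg_eq hT hS
  exact (seg_facts hS).2.1 p (by rw [h]; exact hp) q (by rw [h]; exact hq)

theorem median (x y z : X) : ∃ m, d x m + d m y = d x y ∧ d x m + d m z = d x z ∧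
    d y m + d m z = d y z := by
  obtain ⟨S, hS⟩ := hT.exists_segment x y
  obtain ⟨R, hR⟩ := hT.exists_segment x z
  obtain ⟨m, hm⟩ := inter_form hT hS hR
  obtain ⟨A, hA⟩ := hT.exists_segment m y
  obtain ⟨B, hB⟩ := hT.exists_segment m z
  have eS := seg_eq hT hS
  have eR := seg_eq hT hR
  have em := seg_eq hT hm
  have eA := seg_eq hT hA
  have eB := seg_eq hT hB
  have hmem := (seg_facts hm).2.2.2.2
  have m1 : d x m + d m y = d x y := by have := hmem.1; rw [eS] at this; exact this
  have m2 : d x m + d m z = d x z := by have := hmem.2; rw [eR] at this; exact this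
  refine ⟨m, m1, m2, ?_⟩
  have hAB : A ∩ B = {m} := by
    ext p
    constructor
    · rintro ⟨hpA, hpB⟩
      rw [eA] at hpA
      rw [eB] at hpB
      have hpA : d m p + d p y = d m y := hpA
      have hpB : d m p + d p z = d m z := hpB
      have t1 := hT.dist_triangle x m p
      have t2 := hT.dist_triangle x p y
      have t3 := hT.dist_triangle x p z
      have t4 := hT.dist_nonneg m p
      have hpS : p ∈ S := by rw [eS]; show d x p + d p y = d x y; grind
      have hpR : p ∈ R := by rw [eR]; show d x p + d p z = d x z; grind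
      have h5 : p ∈ S ∩ R := ⟨hpS, hpR⟩
      rw [em] at h5
      have h5 : d x p + d p m = d x m := h5
      have h6 := hT.dist_comm p m
      have h7 : d p m = 0 := by grind
      exact (hT.dist_eq_zero _ _).1 h7
    · rintro rfl
      exact ⟨(seg_facts hA).2.2.2.1, (seg_facts hB).2.2.2.1⟩
  obtain ⟨u, w, hV⟩ := hT.union_segment m y z A B hA hB hAB
  obtain ⟨v1, v2, v3, v4, v5⟩ := seg_facts hV
  have hy : y ∈ A ∪ B := Or.inl (seg_facts hA).2.2.2.2
  have hz : z ∈ A ∪ B := Or.inr (seg_facts hB).2.2.2.2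
  have hm' : m ∈ A ∪ B := Or.inl (seg_facts hA).2.2.2.1
  have f1 := v2 y hy z hz
  have f2 := v2 y hy m hm'
  have f3 := v2 m hm' z hz
  have c1 := hT.dist_comm y m
  have c2 := hT.dist_comm m z
  have c3 := hT.dist_comm y z
  -- if `y` lies between `m` and `z` then `y = m`
  have b1 : d m y + d y z = d m z → d y m + d m z = d y z := by
    intro h
    have : y ∈ A ∩ B := by
      refine ⟨(seg_facts hA).2.2.2.2, ?_⟩
      rw [eB]; exact h
    rw [hAB] at this
    rw [Set.mem_singleton_iff.1 this, d_self hT, zero_add]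
  have b2 : d m z + d z y = d m y → d y m + d m z = d y z := by
    intro h
    have : z ∈ A ∩ B := by
      refine ⟨?_, (seg_facts hB).2.2.2.2⟩
      rw [eA]; exact h
    rw [hAB] at this
    rw [Set.mem_singleton_iff.1 this, d_self hT, add_zero]
  rw [← c3] at b2
  rw [← c1] at b1 b2
  rw [f1, f2, f3] at b1 b2
  rw [f1, f2, f3]
  clear v1 v2 v3 eS eR em eA eB hV hS hR hm hA hB hAB m1 m2 c1 c2 c3 f1 f2 f3
  generalize d u y = α at *
  generalize d u m = β at *
  generalize d u z = γ at *
  rcases abs_cases (α - γ) with ⟨q1, r1⟩ | ⟨q1, r1⟩ <;>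
  rcases abs_cases (α - β) with ⟨q2, r2⟩ | ⟨q2, r2⟩ <;>
  rcases abs_cases (β - γ) with ⟨q3, r3⟩ | ⟨q3, r3⟩
  all_goals rw [q1, q2, q3] at *
  all_goals first
    | (apply b1; grind)
    | (apply b2; grind)
    | grind

end Geom

end Pool.Agent.N66.QG
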