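import Pool.Agent.N66.QG.Act

set_option autoImplicit false
set_option linter.unusedSectionVars false

namespace Pool.Agent.N66.QG

universe u v w

section Main

variable {Λ : Type v} [AddCommGroup Λ] [LinearOrder Λ] [IsOrderedAddMonoid Λ] {X : Type w}
variable {d : X → X → Λ} (hT : IsLambdaTree d)
include hT

/-- doubled Gromov product -/
def gp (d : X → X → Λ) (o p q : X) : Λ := d o p + d o q - d p q

theorem gp_nonneg (o p q : X) : 0 ≤ gp d o p q := by
  have := hT.dist_triangle p o q
  have := hT.dist_comm p o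
  unfold gp; grind

theorem gp_comm (o p q : X) : gp d o p q = gp d o q p := by
  have := hT.dist_comm p q
  unfold gp; grind

/-- if `p, q` have positive product and `p, r` have product zero then `q, r` have product zero -/
theorem gp_zero {o p q r : X} (h1 : 0 < gp d o p q) (h2 : gp d o p r = 0) : gp d o q r = 0 := by
  have h3 := four_point hT o q p r
  have h4 := gp_nonneg hT o q r
  have s1 := hT.dist_comm q p
  unfold gp at *
  rcases le_max_iff.1 h3 with h | h
  · grind
  · grind

variable {G : Type u} [Group G] [MulAction G X] (hF : ActsFreely G d)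
include hF

theorem isom_inv (g : G) (x y : X) : d (g⁻¹ • x) y = d x (g • y) := by
  rw [← hF.isometry g (g⁻¹ • x) y, smul_inv_smul]

theorem exists_proj {a : G} (ha : a ≠ 1) (x : X) : ∃ o,
    d x o + d x o = d x (a • x) + d x (a • x) - d x (a • a • x) ∧
    d o (a • a • o) = d o (a • o) + d o (a • o) ∧
    d x (a • o) = d x o + d o (a • o) ∧ d x (a⁻¹ • o) = d x o + d o (a • o) := by
  have h2 := displ_lt hT hF ha x
  obtain ⟨o, o1, o2, o3⟩ := median hT x (a⁻¹ • x) (a • x)
  have i1 : d x (a⁻¹ • x) = d x (a • x) := by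
    rw [hT.dist_comm, isom_inv hT hF]
  have i2 : d (a⁻¹ • x) (a • x) = d x (a • a • x) := isom_inv hT hF _ _ _
  have i3 : d (a⁻¹ • x) o = d x (a • o) := isom_inv hT hF _ _ _
  have i4 : d (a • x) (a • o) = d x o := hF.isometry _ _ _
  have i5 : d x (a⁻¹ • o) = d o (a • x) := by rw [hT.dist_comm, isom_inv hT hF]
  have s1 := hT.dist_comm (a⁻¹ • x) o
  have s2 := hT.dist_comm (a • x) (a • o)
  have e1 : d x o + d x o = d x (a • x) + d x (a • x) - d x (a • a • x) := by grind
  have A : d x (a • o) + d (a • o) (a • x) = d x (a • x) := by grind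
  have k1 := collinear hT o2 A
  have e2 : d x o ≤ d x (a • o) := by grind
  rw [abs_of_nonpos (by grind)] at k1
  have i6 : d (a • a • o) (a • a • x) = d x o := by
    rw [hF.isometry, hF.isometry, hT.dist_comm]
  have t1 := hT.dist_triangle x o (a • a • x)
  have t2 := hT.dist_triangle o (a • a • o) (a • a • x)
  have t3 := hT.dist_triangle o (a • o) (a • a • o)
  have i7 : d (a • o) (a • a • o) = d o (a • o) := hF.isometry _ _ _
  exact ⟨o, e1, by grind, by grind, by grind⟩

theorem exists_coh_aux {a b : G} (hab : a * b ≠ b * a) (x : X)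
    (hP : d x (b • x) + d x (b • x) - d x (b • b • x) ≤
      d x (a • x) + d x (a • x) - d x (a • a • x)) :
    ∃ (o : X) (g h : G), Coh d o g h ∧ g * h ≠ h * g := by
  have ha : a ≠ 1 := by rintro rfl; simp at hab
  have hb : b ≠ 1 := by rintro rfl; simp at hab
  obtain ⟨o, o1, o2, o3, o4⟩ := exists_proj hT hF ha x
  have hao : o ≠ a • o := fun e => hF.no_fixed_point a ha o e.symm
  have hbo : o ≠ b • o := fun e => hF.no_fixed_point b hb o e.symm
  have sxo := hT.dist_comm x o
  -- translations of Gromov products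
  have iab : ∀ y z : X, d (a⁻¹ • y) z = d y (a • z) := isom_inv hT hF a
  have ibb : ∀ y z : X, d (b⁻¹ • y) z = d y (b • z) := isom_inv hT hF b
  have na : d o (a⁻¹ • o) = d o (a • o) := by rw [hT.dist_comm, iab]
  have nb : d o (b⁻¹ • o) = d o (b • o) := by rw [hT.dist_comm, ibb]
  have gaa : gp d o (a⁻¹ • o) (a • o) = 0 := by
    unfold gp; rw [iab, na, o2]; abel
  have gxa : gp d o (a • o) x = 0 := by
    unfold gp; rw [hT.dist_comm (a • o) x, o3]; grind
  have gxa' : gp d o (a⁻¹ • o) x = 0 := by
    unfold gp; rw [hT.dist_comm (a⁻¹ • o) x, o4, na]; grind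
  have tri := hT.dist_triangle o (b • o) (b • b • o)
  rw [hF.isometry] at tri
  rcases eq_or_lt_of_le tri with hI | hII
  · -- `o` is on the axis of `b`
    have gbb : gp d o (b⁻¹ • o) (b • o) = 0 := by
      unfold gp; rw [ibb, nb, hI]; abel
    by_cases c : gp d o (a⁻¹ • o) (b • o) = 0 ∧ gp d o (b⁻¹ • o) (a • o) = 0
    · refine ⟨o, a, b, ⟨o2, hI, ?_, ?_⟩, hab⟩
      · have := c.1; unfold gp at this; rw [iab, na] at this; grind
      · have := c.2; unfold gp at this; rw [ibb, nb] at this; grind
    · have c2 : gp d o (a⁻¹ • o) (b⁻¹ • o) = 0 ∧ gp d o (b • o) (a • o) = 0 := by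
        rw [not_and_or] at c
        rcases c with c | c
        · have c3 : 0 < gp d o (b • o) (a⁻¹ • o) := by
            rw [gp_comm hT]; exact lt_of_le_of_ne (gp_nonneg hT _ _ _) (Ne.symm c)
          refine ⟨gp_zero hT c3 (by rw [gp_comm hT]; exact gbb), ?_⟩
          rw [gp_comm hT] at c3
          exact gp_zero hT c3 gaa
        · have c3 : 0 < gp d o (a • o) (b⁻¹ • o) := by
            rw [gp_comm hT]; exact lt_of_le_of_ne (gp_nonneg hT _ _ _) (Ne.symm c)
          refine ⟨?_, ?_⟩
          · rw [gp_comm hT]; exact gp_zero hT c3 (by rw [gp_comm hT]; exact gaa)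
          · rw [gp_comm hT] at c3 ⊢
            exact gp_zero hT c3 gbb
      have j1 : d o (b⁻¹ • b⁻¹ • o) = d o (b • b • o) := by
        rw [hT.dist_comm, ibb, ibb]
      refine ⟨o, a, b⁻¹, ⟨o2, ?_, ?_, ?_⟩, ?_⟩
      · rw [j1, nb]; exact hI
      · have := c2.1; unfold gp at this; rw [iab, na, nb] at this; rw [nb]; grind
      · have := c2.2; unfold gp at this
        have e : d o (b⁻¹ • a • o) = d (b • o) (a • o) := by
          rw [hT.dist_comm, ibb, hT.dist_comm]
        rw [nb, e]; grind
      · intro e
        apply hab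
        have : b * (a * b⁻¹) * b = b * (b⁻¹ * a) * b := by rw [e]
        simpa [mul_assoc] using this.symm
  · -- `o` is not on the axis of `b`
    have gbb : 0 < gp d o (b⁻¹ • o) (b • o) := by
      unfold gp; rw [ibb, nb]; grind
    have gbb' : 0 < gp d o (b • o) (b⁻¹ • o) := by rw [gp_comm hT]; exact gbb
    have key : ∀ y : X, gp d o y x = 0 → gp d o (b • o) y = 0 := by
      intro y hy
      by_contra hne
      have hpos : 0 < gp d o y (b • o) := by
        rw [gp_comm hT]; exact lt_of_le_of_ne (gp_nonneg hT _ _ _) (Ne.symm hne)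
      have k1 : gp d o (b • o) x = 0 := gp_zero hT hpos hy
      have k2 : gp d o (b⁻¹ • o) x = 0 := gp_zero hT gbb' k1
      have s1 := hT.dist_comm (b • o) x
      have s2 := hT.dist_comm o (b • x)
      unfold gp at k1 k2
      rw [ibb, nb] at k2
      have A1 : d x o + d o (b • o) = d x (b • o) := by grind
      have A2 : d o (b • o) + d (b • o) (b • x) = d o (b • x) := by
        rw [hF.isometry]; grind
      have A3 := concat hT A1 A2 hbo
      rw [hF.isometry] at A3
      have t1 := hT.dist_triangle x o (b • b • x)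
      have t2 := hT.dist_triangle o (b • b • o) (b • b • x)
      simp only [hF.isometry] at t2
      grind
    have k1 := key _ gxa
    have k2 := key _ gxa'
    have k3 : gp d o (b⁻¹ • o) (a • o) = 0 := gp_zero hT gbb' k1
    have k4 : gp d o (b⁻¹ • o) (a⁻¹ • o) = 0 := gp_zero hT gbb' k2
    have e1 : d o (a • b • o) = d o (a • o) + d o (b • o) := by
      have := k2; rw [gp_comm hT] at this; unfold gp at this; rw [iab, na] at this; grind
    have e2 : d o (b • a • o) = d o (a • o) + d o (b • o) := by
      have := k3; unfold gp at this; rw [ibb, nb] at this; grind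
    -- `o → a o → a a o → a a b o`
    have B1 := concat hT (x := o) (y := a • o) (z := a • a • o) (w := a • a • b • o)
      (by rw [hF.isometry, o2]) (by simp only [hF.isometry]; rw [e1])
      (fun e => hao (MulAction.injective a e))
    -- `o → a o → a b o → a b a o`
    have B2 := concat hT (x := o) (y := a • o) (z := a • b • o) (w := a • b • a • o)
      (by rw [hF.isometry, e1]) (by simp only [hF.isometry]; rw [e2]; abel)
      (fun e => hbo (MulAction.injective a e))
    have B3 := concat hT (x := o) (y := a • b • o) (z := a • b • a • o) (w := a • b • a • b • o)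
      B2 (by simp only [hF.isometry]; rw [e1])
      (fun e => hao (MulAction.injective b (MulAction.injective a e)))
    simp only [hF.isometry] at B1 B2 B3
    refine ⟨o, a, a * b, ⟨o2, ?_, ?_, ?_⟩, ?_⟩
    · simp only [mul_smul]; rw [← B3, ← B2, e1]; abel
    · simp only [mul_smul]; rw [← B1, o2, e1]; abel
    · simp only [mul_smul]; rw [← B2, e1]; abel
    · intro e
      apply hab
      rw [mul_assoc] at e
      exact mul_left_cancel e

theorem exists_coh {a b : G} (hab : a * b ≠ b * a) :
    ∃ (o : X) (g h : G), Coh d o g h ∧ g * h ≠ h * g := by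
  obtain ⟨x⟩ := hT.nonempty
  rcases le_total (d x (b • x) + d x (b • x) - d x (b • b • x))
    (d x (a • x) + d x (a • x) - d x (a • a • x)) with h | h
  · exact exists_coh_aux hT hF hab x h
  · exact exists_coh_aux hT hF (fun e => hab e.symm) x h

/-- A group acting freely on a `Λ`-tree in which every element is a cube is commutative. -/
theorem comm_of_cube_roots (hr : ∀ g : G, ∃ x : G, x ^ 3 = g) (a b : G) : a * b = b * a := by
  by_contra hab
  obtain ⟨o, g, h, hc, hgh⟩ := exists_coh hT hF hab
  have hg1 : g ≠ 1 := by rintro rfl; simp at hgh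
  have hh1 : h ≠ 1 := by rintro rfl; simp at hgh
  rcases le_total (d o (h • o)) (d o (g • o)) with hle | hle
  · obtain ⟨p, hp⟩ := hr g
    obtain ⟨c, hcc⟩ := hr (g * h)
    exact hgh (comm_of_coh hT hF hc hle hg1 hh1 hp hcc)
  · obtain ⟨p, hp⟩ := hr h
    obtain ⟨c, hcc⟩ := hr (h * g)
    have hc' : Coh d o h g := ⟨hc.right, hc.left, by rw [hc.hg, add_comm], by
      rw [hc.gh, add_comm]⟩
    exact hgh (comm_of_coh hT hF hc' hle hh1 hg1 hp hcc).symm

end Main

end Pool.Agent.N66.QG
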